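import Pool.Agent.H37.CNK.Stmts

/-!
# Row `PCZ` of the board `cnk` (helper66)
-/

set_option autoImplicit false

namespace Pool.CND

open Finset

theorem pcz_sm_eq {G : Type} [Fintype G] (b : G → ℤ) (T : Set G) [DecidablePred (· ∈ T)] :
    sm b T = ∑ g, if g ∈ T then b g else 0 := by
  classical
  rw [sm, Finset.sum_filter]
  refine Finset.sum_congr rfl fun g _ => ?_
  congr

/-- sums over the preimage of a set of cosets -/
theorem pcz_fib {G : Type} [Group G] [Fintype G] (M : Subgroup G) [M.Normal] [Fintype (G ⧸ M)]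
    (f : G → ℤ) (F : G ⧸ M → ℤ)
    (h : ∀ g : G, g ∉ M → sm f {y | g⁻¹ * y ∈ M} = Nat.card M * F (g : G ⧸ M))
    (T' : Set (G ⧸ M)) (h1 : (1 : G ⧸ M) ∉ T') :
    sm f {g | (g : G ⧸ M) ∈ T'} = Nat.card M * sm F T' := by
  classical
  rw [sm, sm, Finset.mul_sum]
  rw [← Finset.sum_fiberwise_of_maps_to (s := univ.filter fun g : G => g ∈ {g : G | (g : G ⧸ M) ∈ T'})
    (t := univ.filter fun q : G ⧸ M => q ∈ T') (g := fun g : G => (g : G ⧸ M))]
  · refine Finset.sum_congr rfl fun q hq => ?_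
    obtain ⟨g, rfl⟩ := QuotientGroup.mk_surjective q
    have hq' : (g : G ⧸ M) ∈ T' := (Finset.mem_filter.1 hq).2
    have hg : g ∉ M := fun hgM => h1 (by
      rw [← (QuotientGroup.eq_one_iff g).2 hgM]
      exact hq')
    rw [← h g hg, sm]
    refine Finset.sum_congr ?_ fun _ _ => rfl
    ext y
    simp only [Finset.mem_filter, Finset.mem_univ, true_and, Set.mem_ofPred_eq]
    constructor
    · rintro ⟨_, h3⟩
      exact QuotientGroup.eq.1 h3.symm
    · intro h3
      have h4 : (y : G ⧸ M) = (g : G ⧸ M) := (QuotientGroup.eq.2 h3).symm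
      exact ⟨by rw [h4]; exact hq', h4⟩
  · intro g hg
    simp only [Finset.mem_filter, Finset.mem_univ, true_and, Set.mem_ofPred_eq] at hg ⊢
    exact hg

/-- powers have larger values -/
theorem pcz_pow {G : Type} [Group G] {b : G → ℤ} (hb : UM b ⊤) {x : G} (hx : x ≠ 1) (n : ℕ) :
    x ^ n = 1 ∨ b x ≤ b (x ^ n) := by
  induction n with
  | zero => left; exact pow_zero x
  | succ n ih =>
    by_cases h1 : x ^ (n + 1) = 1
    · left; exact h1
    · right
      rw [pow_succ] at h1 ⊢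
      rcases ih with h2 | h2
      · rw [h2, one_mul]
      · by_cases h3 : x ^ n = 1
        · rw [h3, one_mul]
        · exact (le_min h2 le_rfl).trans
            (hb.mul _ (Subgroup.mem_top _) _ (Subgroup.mem_top _) h3 hx h1)

theorem pcz_gen {G : Type} [Group G] [Finite G] {b : G → ℤ} (hb : UM b ⊤) {z : G} {p : ℕ}
    (hp : p.Prime) (hz : orderOf z = p) {q : G} (hq : q ∈ Subgroup.zpowers z) (hq1 : q ≠ 1) :
    b q = b z := by
  have hz1 : z ≠ 1 := by
    rintro rfl
    rw [orderOf_one] at hz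
    exact hp.one_lt.ne hz
  have hqz : Subgroup.zpowers q ≤ Subgroup.zpowers z := (Subgroup.zpowers_le).2 hq
  have hcard : Nat.card (Subgroup.zpowers q) = Nat.card (Subgroup.zpowers z) := by
    have h1 : Nat.card (Subgroup.zpowers q) ∣ Nat.card (Subgroup.zpowers z) :=
      Subgroup.card_dvd_of_le hqz
    rw [Nat.card_zpowers, Nat.card_zpowers, hz] at h1 ⊢
    rcases (Nat.dvd_prime hp).1 h1 with h2 | h2
    · exact absurd (orderOf_eq_one_iff.1 h2) hq1
    · exact h2
  have heq : Subgroup.zpowers q = Subgroup.zpowers z :=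
    Subgroup.eq_of_le_of_card_ge hqz hcard.ge
  have hzq : z ∈ Subgroup.zpowers q := by rw [heq]; exact Subgroup.mem_zpowers z
  obtain ⟨n, hn⟩ := (mem_powers_iff_mem_zpowers.2 hq : q ∈ Submonoid.powers z)
  obtain ⟨m, hm⟩ := (mem_powers_iff_mem_zpowers.2 hzq : z ∈ Submonoid.powers q)
  simp only at hn hm
  apply le_antisymm
  · rcases pcz_pow hb hq1 m with h | h
    · exact absurd (hm.symm.trans h) hz1
    · rwa [hm] at h
  · rcases pcz_pow hb hz1 n with h | h
    · exact absurd (hn.symm.trans h) hq1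
    · rwa [hn] at h

theorem pcz_cyc {G : Type} [Group G] [Fintype G] {b : G → ℤ} (hb : UM b ⊤) {z : G} {p : ℕ}
    (hp : p.Prime) (hz : orderOf z = p) :
    sm b {q | q ≠ 1} = ((p : ℤ) - 1) * b z + sm b {q | q ∉ Subgroup.zpowers z} := by
  classical
  rw [pcz_sm_eq, pcz_sm_eq]
  have h1 : ∀ q : G, (if q ∈ {q : G | q ≠ 1} then b q else 0) =
      ((if q ∈ Subgroup.zpowers z then b z else 0) - (if q = 1 then b z else 0)) +
        (if q ∈ {q : G | q ∉ Subgroup.zpowers z} then b q else 0) := by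
    intro q
    simp only [Set.mem_ofPred_eq]
    by_cases h2 : q = 1
    · have h3 : q ∈ Subgroup.zpowers z := by rw [h2]; exact one_mem _
      simp [h2]
    · by_cases h3 : q ∈ Subgroup.zpowers z
      · simp [h2, h3, pcz_gen hb hp hz h3 h2]
      · simp [h2, h3]
  rw [Finset.sum_congr rfl fun q _ => h1 q, Finset.sum_add_distrib, Finset.sum_sub_distrib]
  congr 1
  rw [Finset.sum_ite_eq' univ (1 : G) (fun _ => b z), if_pos (Finset.mem_univ _),
    ← Finset.sum_filter, Finset.sum_const, nsmul_eq_mul]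
  have h4 : (univ.filter fun q : G => q ∈ Subgroup.zpowers z).card = p := by
    rw [← hz, ← Nat.card_zpowers, Nat.card_eq_fintype_card, Fintype.card_subtype]
  rw [h4]
  ring

theorem pcz_top {G : Type} [Group G] [Fintype G] {b : G → ℤ} (hb : UM b ⊤) {v : G} {l : ℤ}
    (M : Subgroup G) (hv : v ∉ M) (hl : b v = l) (hmax : ∀ g : G, g ≠ 1 → b g ≤ l) :
    sm b {y | v⁻¹ * y ∈ M} = l + sm b {m | m ∈ M ∧ m ≠ 1} := by
  classical
  rw [pcz_sm_eq, pcz_sm_eq]
  rw [← Equiv.sum_comp (Equiv.mulLeft v)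
    (fun y => if y ∈ {y : G | v⁻¹ * y ∈ M} then b y else 0)]
  have hv1 : v ≠ 1 := fun h => hv (by rw [h]; exact one_mem M)
  have h1 : ∀ m : G, (if (Equiv.mulLeft v) m ∈ {y : G | v⁻¹ * y ∈ M} then b ((Equiv.mulLeft v) m)
      else 0) = (if m = 1 then l else 0) + (if m ∈ {m : G | m ∈ M ∧ m ≠ 1} then b m else 0) := by
    intro m
    simp only [Equiv.coe_mulLeft, Set.mem_ofPred_eq, inv_mul_cancel_left]
    by_cases h2 : m = 1
    · subst h2
      simp [hl]
    · by_cases h3 : m ∈ M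
      · have h4 : v * m ≠ 1 := by
          intro h5
          exact hv (by
            rw [eq_inv_of_mul_eq_one_left h5]
            exact inv_mem h3)
        have h5 : b (v * m) = b m := by
          apply le_antisymm
          · have h6 := hb.mul v⁻¹ (Subgroup.mem_top _) (v * m) (Subgroup.mem_top _)
              (inv_ne_one.2 hv1) h4 (by rwa [inv_mul_cancel_left])
            rw [inv_mul_cancel_left, hb.inv v (Subgroup.mem_top _) hv1, hl,
              min_eq_right (hmax _ h4)] at h6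
            exact h6
          · have h6 := hb.mul v (Subgroup.mem_top _) m (Subgroup.mem_top _) hv1 h2 h4
            rw [hl, min_eq_right (hmax _ h2)] at h6
            exact h6
        simp [h2, h3, h5]
      · simp [h2, h3]
  rw [Finset.sum_congr rfl fun m _ => h1 m, Finset.sum_add_distrib,
    Finset.sum_ite_eq' univ (1 : G) (fun _ => l), if_pos (Finset.mem_univ _)]

theorem pcz_split {G : Type} [Group G] [Fintype G] (b : G → ℤ) (M : Subgroup G) :
    sm b {g | g ∉ (⊥ : Subgroup G)} = sm b {m | m ∈ M ∧ m ≠ 1} + sm b {g | g ∉ M} := by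
  classical
  rw [pcz_sm_eq, pcz_sm_eq, pcz_sm_eq, ← Finset.sum_add_distrib]
  refine Finset.sum_congr rfl fun g _ => ?_
  simp only [Set.mem_ofPred_eq, Subgroup.mem_bot]
  by_cases h1 : g = 1
  · subst h1
    simp [one_mem]
  · by_cases h2 : g ∈ M
    · simp [h1, h2]
    · simp [h1, h2]

theorem pcz_thm (hHIN : S_HIN) (hITG : S_ITG) (hQSM : S_QSM) (hLPO : S_LPO) (hPCQ : S_PCQ)
    (hCON : S_CON) (hBAS : S_BAS) : S_PCZ := by
  intro p k L G _ _ _ _ _ _ ρ t P c hP hp2 hcen hc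
  have hp := hP.pr
  obtain ⟨hr, hfix, -, hUM, hinj⟩ := hBAS p k L G ρ t P hP
  have hr0 : ram P ρ 0 = Set.univ := by
    ext g
    simp only [Set.mem_univ, iff_true]
    have hg : g ∈ ram P ρ 1 := by rw [hr]; trivial
    refine ⟨hfix g, fun u hu hu1 => ?_⟩
    rcases hg.2 u hu hu1 with h | h
    · left; exact h
    · right
      push_cast at h ⊢
      omega
  have hG0 : (Nat.card G : ℚ) ≠ 0 := by exact_mod_cast Nat.card_pos.ne'
  rcases hCON k L G P ρ ⊤ ⊤ c hinj (by rw [hr, Subgroup.coe_top]) (by rw [hr0, Subgroup.coe_top])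
    hc with h0 | ⟨l, hl, hcl⟩
  · exact ⟨0, by rw [h0]; norm_num⟩
  obtain ⟨v, -, hv1, hvl⟩ := hl.mem
  have hmax : ∀ g : G, g ≠ 1 → P.b (ρ g) ≤ l := fun g hg => hl.le g (Subgroup.mem_top _) hg
  have hvp : v ^ p = 1 := by
    by_contra h1
    rcases hLPO p k L G ρ t P hP v hv1 with h2 | h2
    · exact h1 h2
    · have h3 := hmax _ h1
      exact absurd (h3.trans hvl.symm.le) (not_le.2 h2)
  obtain ⟨M, hMn, hMp, hvM, hMi⟩ := hPCQ p G v hp hp2 hP.cd hcen hvp hv1
  obtain ⟨E, ρ', t', Q, -, -, -, hQ, -, hsum⟩ := hQSM p k L G ρ t P M hP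
  let _ : Fintype (G ⧸ M) := Fintype.ofFinite _
  obtain ⟨-, -, -, hUM', -⟩ := hBAS p k E (G ⧸ M) ρ' t' Q hQ
  have hvz : (v : G ⧸ M) ≠ 1 := fun h => hvM ((QuotientGroup.eq_one_iff v).1 h)
  have hoz : orderOf (v : G ⧸ M) = p := by
    have : Fact p.Prime := ⟨hp⟩
    refine orderOf_eq_prime ?_ hvz
    rw [← QuotientGroup.mk_pow, hvp]
    rfl
  have hzc : ∀ g : G ⧸ M, g * (v : G ⧸ M) = (v : G ⧸ M) * g := by
    intro g
    obtain ⟨g, rfl⟩ := QuotientGroup.mk_surjective g
    rw [← QuotientGroup.mk_mul, ← QuotientGroup.mk_mul, Subgroup.mem_center_iff.1 (hcen v hvp) g]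
  -- the subgroup of elements of order dividing p
  let Ω : Subgroup G :=
    { carrier := {x | x ^ p = 1}
      one_mem' := one_pow p
      mul_mem' := fun {a b} ha hb => by
        have h1 : Commute a b := (Subgroup.mem_center_iff.1 (hcen b hb) a)
        change (a * b) ^ p = 1
        rw [h1.mul_pow, ha, hb, one_mul]
      inv_mem' := fun {a} ha => by
        change (a⁻¹) ^ p = 1
        rw [inv_pow, ha, inv_one] }
  have hΩ : ∀ x : G, x ∈ Ω ↔ x ^ p = 1 := fun x => Iff.rfl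
  have hH := hHIN p k L G ρ t P Ω l hP hp2 hcen hΩ hl
  have hΩz : ∀ x : G, x ∈ Ω ↔ (x : G ⧸ M) ∈ Subgroup.zpowers (v : G ⧸ M) := by
    intro x
    constructor
    · intro hx
      obtain ⟨i, hi⟩ := hMi x hx
      have h2 : (x : G ⧸ M) * (v : G ⧸ M) ^ i = 1 := by
        rw [← QuotientGroup.mk_pow, ← QuotientGroup.mk_mul]
        exact (QuotientGroup.eq_one_iff _).2 hi
      rw [eq_inv_of_mul_eq_one_left h2]
      exact inv_mem (pow_mem (Subgroup.mem_zpowers _) i)
    · intro hx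
      obtain ⟨i, hi⟩ := Subgroup.mem_zpowers_iff.1 hx
      have h2 : (v ^ i)⁻¹ * x ∈ M := by
        rw [← QuotientGroup.eq, QuotientGroup.mk_zpow]
        exact hi
      have h3 : x = v ^ i * ((v ^ i)⁻¹ * x) := by group
      rw [h3]
      exact Ω.mul_mem (Ω.zpow_mem hvp i) (hMp _ h2)
  have hfib := pcz_fib M (fun g => P.b (ρ g)) (fun q => Q.b (ρ' q)) hsum
  have h3 : So P ρ Ω = Nat.card M * So Q ρ' (Subgroup.zpowers (v : G ⧸ M)) := by
    rw [So, So, ← hfib {g | g ∉ Subgroup.zpowers (v : G ⧸ M)} (fun h => h (one_mem _))]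
    congr 1
    ext x
    simp only [Set.mem_ofPred_eq]
    rw [hΩz]
  have h4 : sm (fun g => P.b (ρ g)) {g | g ∉ M} =
      Nat.card M * (((p : ℤ) - 1) * Q.b (ρ' (v : G ⧸ M)) +
        So Q ρ' (Subgroup.zpowers (v : G ⧸ M))) := by
    have h5 := pcz_cyc hUM' hp hoz
    rw [So, ← h5, ← hfib {q | q ≠ 1} (fun h => h rfl)]
    congr 1
    ext x
    simp only [Set.mem_ofPred_eq, ne_eq]
    rw [QuotientGroup.eq_one_iff]
  have h5 : l + So P ρ ⊥ = Nat.card M * (p * Q.b (ρ' (v : G ⧸ M)) +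
      So Q ρ' (Subgroup.zpowers (v : G ⧸ M))) := by
    have h6 := pcz_top hUM M hvM hvl hmax
    rw [hsum v hvM] at h6
    rw [So, pcz_split _ M, h4, ← add_assoc, ← h6]
    ring
  have hM0 : (0 : ℤ) < Nat.card M := by exact_mod_cast Nat.card_pos
  have h6 : ((p : ℤ) - 1) * So Q ρ' (Subgroup.zpowers (v : G ⧸ M)) ≤
      p * Q.b (ρ' (v : G ⧸ M)) := by
    rw [h5, h3] at hH
    have h7 : (Nat.card M : ℤ) * (p * So Q ρ' (Subgroup.zpowers (v : G ⧸ M))) ≤
        Nat.card M * (p * Q.b (ρ' (v : G ⧸ M)) + So Q ρ' (Subgroup.zpowers (v : G ⧸ M))) := by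
      calc (Nat.card M : ℤ) * (p * So Q ρ' (Subgroup.zpowers (v : G ⧸ M)))
          = p * (Nat.card M * So Q ρ' (Subgroup.zpowers (v : G ⧸ M))) := by ring
        _ ≤ _ := hH
    have h8 := le_of_mul_le_mul_left h7 hM0
    linarith
  obtain ⟨n, hn⟩ := hITG p k E (G ⧸ M) ρ' t' Q (v : G ⧸ M) hQ hp2 hoz hzc h6
  refine ⟨n, ?_⟩
  have hcard : Nat.card G = Nat.card (G ⧸ M) * Nat.card M :=
    Subgroup.card_eq_card_quotient_mul_card_subgroup M
  have h9 : (Nat.card G : ℤ) * n = l + So P ρ ⊥ := by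
    rw [h5, ← hn, hcard]
    push_cast
    ring
  have h10 : (Nat.card G : ℚ) * c = (l : ℚ) + So P ρ ⊥ := by
    rw [Subgroup.card_top] at hcl
    rw [hcl, U, Subgroup.card_top, mul_div_cancel₀ _ hG0, So]
    congr 3
    ext x
    simp
  have h11 : (Nat.card G : ℚ) * c = Nat.card G * n := by
    rw [h10]
    exact_mod_cast h9.symm
  exact mul_left_cancel₀ hG0 h11

end Pool.CND
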